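import Mathlib

/-!
# Power series of the regular Coulomb wave function
-/

namespace Pool.Agent.V1174.Coul

open Complex

/-- Kummer's confluent hypergeometric function `M(a, b, z) = ∑ (a)_k / (b)_k z ^ k / k!`. -/
noncomputable def kummer (a b z : ℂ) : ℂ :=
  ∑' k : ℕ, (ascPochhammer ℂ k).eval a / (ascPochhammer ℂ k).eval b * z ^ k / (k.factorial : ℂ)

/-- The normalising constant `C_L(η)`. -/
noncomputable def coulombC (L η : ℝ) : ℝ :=
  (2 : ℝ) ^ L * Real.exp (-Real.pi * η / 2) * ‖Complex.Gamma ((L : ℂ) + 1 + Complex.I * η)‖ /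
    Real.Gamma (2 * L + 2)

/-- The regular Coulomb wave function
`F_{L,η}(ρ) = C_L(η) ρ ^ (L+1) e ^ (-iρ) M(L + 1 - iη, 2L + 2, 2iρ)`. -/
noncomputable def coulombF (L η ρ : ℝ) : ℂ :=
  (coulombC L η : ℂ) * ((ρ ^ (L + 1) : ℝ) : ℂ) * Complex.exp (-(Complex.I * ρ)) *
    kummer ((L : ℂ) + 1 - Complex.I * η) (2 * (L : ℂ) + 2) (2 * Complex.I * ρ)

/-- The real Taylor coefficients of `e ^ (-iρ) M(L + 1 - iη, 2L + 2, 2iρ)`. -/
noncomputable def A (L η : ℝ) : ℕ → ℝ
  | 0 => 1
  | 1 => η / (L + 1)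
  | (k + 2) => (2 * η * A L η (k + 1) - A L η k) / (((k : ℝ) + 2) * ((k : ℝ) + 2 + 2 * L + 1))

noncomputable def Es : PowerSeries ℂ := PowerSeries.mk fun k => (-I) ^ k / (k.factorial : ℂ)

noncomputable def Ms (a b : ℂ) : PowerSeries ℂ :=
  PowerSeries.mk fun k =>
    (ascPochhammer ℂ k).eval a / (ascPochhammer ℂ k).eval b * (2 * I) ^ k / (k.factorial : ℂ)

theorem dEs : PowerSeries.derivative ℂ Es = PowerSeries.C (-I) * Es := by
  ext k
  rw [PowerSeries.coeff_derivative, PowerSeries.coeff_C_mul]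
  simp only [Es, PowerSeries.coeff_mk]
  rw [Nat.factorial_succ]
  have h1 : ((k : ℂ) + 1) ≠ 0 := by exact_mod_cast Nat.succ_ne_zero k
  have h2 : (k.factorial : ℂ) ≠ 0 := by exact_mod_cast k.factorial_ne_zero
  push_cast
  field_simp
  ring

theorem asc_ne (b : ℂ) (hb : ∀ k : ℕ, b + k ≠ 0) (k : ℕ) :
    (ascPochhammer ℂ k).eval b ≠ 0 := by
  induction k with
  | zero => simp
  | succ k ih => rw [ascPochhammer_succ_eval]; exact mul_ne_zero ih (hb k)

theorem Ms_rec (a b : ℂ) (hb : ∀ k : ℕ, b + k ≠ 0) (k : ℕ) :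
    ((k : ℂ) + 1) * (k + b) * PowerSeries.coeff (k + 1) (Ms a b) =
      2 * I * (k + a) * PowerSeries.coeff k (Ms a b) := by
  simp only [Ms, PowerSeries.coeff_mk]
  rw [Nat.factorial_succ, ascPochhammer_succ_eval, ascPochhammer_succ_eval]
  have h1 : ((k : ℂ) + 1) ≠ 0 := by exact_mod_cast Nat.succ_ne_zero k
  have h2 : (k.factorial : ℂ) ≠ 0 := by exact_mod_cast k.factorial_ne_zero
  have h3 : b + k ≠ 0 := hb k
  have h4 : (ascPochhammer ℂ k).eval b ≠ 0 := by
    exact asc_ne b hb k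
  have h3' : (k : ℂ) + b ≠ 0 := by rwa [add_comm]
  push_cast
  field_simp
  ring

theorem Ms_ode (a b : ℂ) (hb : ∀ k : ℕ, b + k ≠ 0) :
    PowerSeries.X * PowerSeries.derivative ℂ (PowerSeries.derivative ℂ (Ms a b)) +
      PowerSeries.C b * PowerSeries.derivative ℂ (Ms a b) =
    PowerSeries.C (2 * I) * (PowerSeries.X * PowerSeries.derivative ℂ (Ms a b) +
      PowerSeries.C a * Ms a b) := by
  ext k
  rw [map_add, PowerSeries.coeff_C_mul, PowerSeries.coeff_C_mul, map_add, PowerSeries.coeff_C_mul,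
    PowerSeries.coeff_derivative]
  rcases k with _ | k
  · rw [PowerSeries.coeff_zero_X_mul, PowerSeries.coeff_zero_X_mul]
    have h := Ms_rec a b hb 0
    simp only [Nat.cast_zero, zero_add, one_mul] at h ⊢
    linear_combination h
  · rw [PowerSeries.coeff_succ_X_mul, PowerSeries.coeff_succ_X_mul, PowerSeries.coeff_derivative,
      PowerSeries.coeff_derivative, PowerSeries.coeff_derivative]
    have h := Ms_rec a b hb (k + 1)
    push_cast at h ⊢
    linear_combination h

/-- The power series of `e ^ (-iρ) M(a, b, 2iρ)`. -/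
noncomputable def Gs (a b : ℂ) : PowerSeries ℂ := Es * Ms a b

theorem Gs_ode (a b : ℂ) (hb : ∀ k : ℕ, b + k ≠ 0) :
    PowerSeries.X * PowerSeries.derivative ℂ (PowerSeries.derivative ℂ (Gs a b)) +
      PowerSeries.C b * PowerSeries.derivative ℂ (Gs a b) =
    (PowerSeries.C (2 * I * a - I * b) - PowerSeries.X) * Gs a b := by
  have hm := Ms_ode a b hb
  have hE := dEs
  have h1 : PowerSeries.derivative ℂ (Gs a b) =
      PowerSeries.C (-I) * Gs a b + Es * PowerSeries.derivative ℂ (Ms a b) := by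
    rw [Gs, Derivation.leibniz, hE, smul_eq_mul, smul_eq_mul]
    ring
  have h2 : PowerSeries.derivative ℂ (PowerSeries.derivative ℂ (Gs a b)) =
      PowerSeries.C (-I) * PowerSeries.derivative ℂ (Gs a b) +
      PowerSeries.C (-I) * Es * PowerSeries.derivative ℂ (Ms a b) +
      Es * PowerSeries.derivative ℂ (PowerSeries.derivative ℂ (Ms a b)) := by
    rw [h1, map_add, Derivation.leibniz, Derivation.leibniz, hE, PowerSeries.derivative_C, h1]
    simp only [smul_eq_mul]
    ring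
  have hI : (PowerSeries.C I : PowerSeries ℂ) * PowerSeries.C I = -1 := by
    rw [← map_mul, Complex.I_mul_I]; simp
  have h3 : (PowerSeries.C (-I) : PowerSeries ℂ) = -PowerSeries.C I := by simp
  have h22 : (PowerSeries.C (2 : ℂ) : PowerSeries ℂ) = 2 := map_ofNat PowerSeries.C 2
  have h4 : (PowerSeries.C (2 * I) : PowerSeries ℂ) = 2 * PowerSeries.C I := by
    rw [map_mul, h22]
  have h5 : (PowerSeries.C (2 * I * a - I * b) : PowerSeries ℂ) =
      2 * PowerSeries.C I * PowerSeries.C a - PowerSeries.C I * PowerSeries.C b := by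
    rw [map_sub, map_mul, map_mul, map_mul, h22]
  rw [h2, h1, h5]
  rw [h3] at *
  rw [h4] at hm
  have hg : Gs a b = Es * Ms a b := rfl
  rw [hg]
  linear_combination Es * hm + (PowerSeries.X * Es * Ms a b) * hI

theorem Gs_rec (a b : ℂ) (hb : ∀ k : ℕ, b + k ≠ 0) (k : ℕ) :
    ((k : ℂ) + 2) * (k + 1 + b) * PowerSeries.coeff (k + 2) (Gs a b) =
      (2 * I * a - I * b) * PowerSeries.coeff (k + 1) (Gs a b) - PowerSeries.coeff k (Gs a b) := by
  have h := congrArg (PowerSeries.coeff (k + 1)) (Gs_ode a b hb)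
  rw [map_add, PowerSeries.coeff_succ_X_mul, PowerSeries.coeff_C_mul, sub_mul, map_sub,
    PowerSeries.coeff_C_mul, PowerSeries.coeff_succ_X_mul, PowerSeries.coeff_derivative,
    PowerSeries.coeff_derivative] at h
  push_cast at h
  linear_combination h

theorem Gs_zero (a b : ℂ) : PowerSeries.coeff 0 (Gs a b) = 1 := by
  simp [Gs, Es, Ms]

theorem Gs_one (a b : ℂ) (hb : ∀ k : ℕ, b + k ≠ 0) :
    b * PowerSeries.coeff 1 (Gs a b) = 2 * I * a - I * b := by
  have h := congrArg (PowerSeries.coeff 0) (Gs_ode a b hb)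
  rw [map_add, PowerSeries.coeff_zero_X_mul, PowerSeries.coeff_C_mul, sub_mul, map_sub,
    PowerSeries.coeff_C_mul, PowerSeries.coeff_zero_X_mul, PowerSeries.coeff_derivative,
    Gs_zero] at h
  push_cast at h
  linear_combination h

theorem coeff_Gs (L η : ℝ) (hL : -1 < L) (k : ℕ) :
    PowerSeries.coeff k (Gs ((L : ℂ) + 1 - I * η) (2 * (L : ℂ) + 2)) = ((A L η k : ℝ) : ℂ) := by
  have hb : ∀ k : ℕ, (2 * (L : ℂ) + 2) + k ≠ 0 := by
    intro k h
    have h' : ((2 * L + 2 + k : ℝ) : ℂ) = 0 := by push_cast; exact h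
    have h'' : (2 * L + 2 + k : ℝ) = 0 := by exact_mod_cast h'
    have : (0 : ℝ) ≤ k := Nat.cast_nonneg k
    linarith
  have hη : 2 * I * ((L : ℂ) + 1 - I * η) - I * (2 * (L : ℂ) + 2) = 2 * η := by
    linear_combination (-2 * (η : ℂ)) * I_mul_I
  have key : ∀ k : ℕ,
      PowerSeries.coeff k (Gs ((L : ℂ) + 1 - I * η) (2 * (L : ℂ) + 2)) = ((A L η k : ℝ) : ℂ) ∧
      PowerSeries.coeff (k + 1) (Gs ((L : ℂ) + 1 - I * η) (2 * (L : ℂ) + 2)) =
        ((A L η (k + 1) : ℝ) : ℂ) := by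
    intro k
    induction k with
    | zero =>
      refine ⟨by simp [Gs_zero, A], ?_⟩
      have h := Gs_one ((L : ℂ) + 1 - I * η) (2 * (L : ℂ) + 2) hb
      rw [hη] at h
      have h1 : ((L : ℂ) + 1) ≠ 0 := by
        have := hb 0
        intro h0
        apply this
        push_cast
        linear_combination 2 * h0
      simp only [A, zero_add]
      push_cast
      rw [eq_div_iff h1]
      linear_combination h / 2
    | succ k ih =>
      refine ⟨ih.2, ?_⟩
      have h := Gs_rec ((L : ℂ) + 1 - I * η) (2 * (L : ℂ) + 2) hb k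
      rw [hη, ih.1, ih.2] at h
      have h1 : ((k : ℂ) + 2) ≠ 0 := by exact_mod_cast Nat.succ_ne_zero (k + 1)
      have h2 : ((k : ℂ) + 2 + 2 * L + 1) ≠ 0 := by
        have := hb (k + 1)
        intro h0
        apply this
        push_cast
        linear_combination h0
      simp only [A]
      push_cast
      rw [eq_div_iff (mul_ne_zero h1 h2)]
      linear_combination h
  exact (key k).1

end Pool.Agent.V1174.Coul
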