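import Pool.Agent.V1174.Coul.Series
import Pool.Agent.V1174.Coul.Data

/-!
# The first positive zeros of two Coulomb wave functions with parameter 1/10
-/

namespace Pool.Agent.V1174.Coul

open Finset

theorem A_bound (L η : ℝ) (hL : -1 < L) (hη : |η| ≤ 1 / 2) (k : ℕ) :
    |A L η k| ≤ (1 + |η / (L + 1)|) * (2 ^ k / (k.factorial : ℝ)) := by
  set C := 1 + |η / (L + 1)| with hC
  have hCpos : 0 < C := by positivity
  have key : ∀ k : ℕ, |A L η k| ≤ C * (2 ^ k / (k.factorial : ℝ)) ∧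
      |A L η (k + 1)| ≤ C * (2 ^ (k + 1) / ((k + 1).factorial : ℝ)) := by
    intro k
    induction k with
    | zero =>
      constructor
      · simp [A, hC]
      · simp only [A, zero_add, pow_one, Nat.factorial_one, Nat.cast_one, div_one]
        have := abs_nonneg (η / (L + 1))
        rw [hC]; linarith
    | succ k ih =>
      refine ⟨ih.2, ?_⟩
      have hk : (0 : ℝ) ≤ k := Nat.cast_nonneg k
      have hf : (0 : ℝ) < k.factorial := by exact_mod_cast k.factorial_pos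
      have hd1 : (0 : ℝ) < (k : ℝ) + 2 := by positivity
      have hd2 : (k : ℝ) + 1 ≤ (k : ℝ) + 2 + 2 * L + 1 := by linarith
      have hd3 : (0 : ℝ) < (k : ℝ) + 1 := by positivity
      have hd4 : (0 : ℝ) < (k : ℝ) + 2 + 2 * L + 1 := by linarith
      have e1 : A L η (k + 1 + 1) = (2 * η * A L η (k + 1) - A L η k) /
          (((k : ℝ) + 2) * ((k : ℝ) + 2 + 2 * L + 1)) := by simp [A]
      rw [e1, abs_div, abs_of_pos (mul_pos hd1 hd4)]
      have h1 : |2 * η * A L η (k + 1) - A L η k| ≤ |A L η (k + 1)| + |A L η k| := by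
        refine (abs_sub _ _).trans ?_
        rw [abs_mul, abs_mul, abs_of_pos (by norm_num : (0 : ℝ) < 2)]
        have : 2 * |η| * |A L η (k + 1)| ≤ 1 * |A L η (k + 1)| := by
          apply mul_le_mul_of_nonneg_right _ (abs_nonneg _)
          linarith
        linarith
      have h2 : |2 * η * A L η (k + 1) - A L η k| ≤
          C * (2 ^ (k + 1) / ((k + 1).factorial : ℝ)) + C * (2 ^ k / (k.factorial : ℝ)) := by
        linarith [ih.1, ih.2]
      rw [div_le_iff₀ (mul_pos hd1 hd4)]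
      refine h2.trans ?_
      have h3 : C * (2 ^ (k + 1 + 1) / ((k + 1 + 1).factorial : ℝ)) * (((k : ℝ) + 2) * ((k : ℝ) + 1)) ≤
          C * (2 ^ (k + 1 + 1) / ((k + 1 + 1).factorial : ℝ)) *
            (((k : ℝ) + 2) * ((k : ℝ) + 2 + 2 * L + 1)) := by
        gcongr
      refine le_trans ?_ h3
      rw [Nat.factorial_succ (k + 1), Nat.factorial_succ k]
      push_cast
      have h4 : C * (2 ^ (k + 1 + 1) / (((k : ℝ) + 1 + 1) * (((k : ℝ) + 1) * (k.factorial : ℝ)))) *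
          (((k : ℝ) + 2) * ((k : ℝ) + 1)) = C * (2 ^ k / (k.factorial : ℝ)) * 4 := by
        have : ((k : ℝ) + 1 + 1) = (k : ℝ) + 2 := by ring
        rw [this]
        field_simp
        ring
      rw [h4]
      have h5 : C * (2 ^ (k + 1) / (((k : ℝ) + 1) * (k.factorial : ℝ))) ≤
          C * (2 ^ k / (k.factorial : ℝ)) * 2 := by
        have : C * (2 ^ (k + 1) / (((k : ℝ) + 1) * (k.factorial : ℝ))) =
            C * (2 ^ k / (k.factorial : ℝ)) * 2 / ((k : ℝ) + 1) := by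
          field_simp
          ring
        rw [this]
        apply div_le_self (by positivity)
        linarith
      have h6 : 0 ≤ C * (2 ^ k / (k.factorial : ℝ)) := by positivity
      linarith
  exact (key k).1

theorem term_bound (L η : ℝ) (hL : -1 < L) (hη : |η| ≤ 1 / 2) {ρ : ℝ} (hρ : |ρ| ≤ 4) (k : ℕ) :
    ‖A L η k * ρ ^ k‖ ≤ (1 + |η / (L + 1)|) * (8 ^ k / (k.factorial : ℝ)) := by
  rw [Real.norm_eq_abs, abs_mul, abs_pow]
  calc |A L η k| * |ρ| ^ k ≤ ((1 + |η / (L + 1)|) * (2 ^ k / (k.factorial : ℝ))) * 4 ^ k := by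
        apply mul_le_mul (A_bound L η hL hη k) (pow_le_pow_left₀ (abs_nonneg _) hρ k)
          (by positivity) (by positivity)
    _ = _ := by
        rw [show (8 : ℝ) = 2 * 4 by norm_num, mul_pow]; ring

theorem summable_bound (C : ℝ) : Summable fun k : ℕ => C * (8 ^ k / (k.factorial : ℝ)) :=
  (Real.summable_pow_div_factorial 8).mul_left C

theorem summable_Phi (L η : ℝ) (hL : -1 < L) (hη : |η| ≤ 1 / 2) {ρ : ℝ} (hρ : |ρ| ≤ 4) :
    Summable fun k : ℕ => A L η k * ρ ^ k :=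
  Summable.of_norm_bounded (summable_bound _) (term_bound L η hL hη hρ)

theorem continuousOn_Phi (L η : ℝ) (hL : -1 < L) (hη : |η| ≤ 1 / 2) :
    ContinuousOn (Phi L η) (Set.Icc 0 4) := by
  unfold Phi
  refine continuousOn_tsum (fun k => ?_) (summable_bound (1 + |η / (L + 1)|)) ?_
  · fun_prop
  · intro k ρ hρ
    exact term_bound L η hL hη (by rw [abs_of_nonneg hρ.1]; exact hρ.2) k

theorem fact_bound (k : ℕ) : (8 : ℝ) ^ (k + 28) / ((k + 28).factorial : ℝ) ≤
    8 ^ 28 / (Nat.factorial 28 : ℝ) * (1 / 2) ^ k := by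
  induction k with
  | zero => simp
  | succ k ih =>
    have h1 : (8 : ℝ) ^ (k + 1 + 28) / ((k + 1 + 28).factorial : ℝ) =
        (8 : ℝ) ^ (k + 28) / ((k + 28).factorial : ℝ) * (8 / ((k : ℝ) + 29)) := by
      rw [show k + 1 + 28 = (k + 28) + 1 by ring, Nat.factorial_succ, pow_succ]
      push_cast
      have : (0 : ℝ) < (k + 28).factorial := by exact_mod_cast (k + 28).factorial_pos
      have h3 : (k : ℝ) + 28 + 1 = (k : ℝ) + 29 := by ring
      rw [h3]
      field_simp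
    rw [h1, pow_succ]
    have h2 : (8 : ℝ) / ((k : ℝ) + 29) ≤ 1 / 2 := by
      rw [div_le_div_iff₀ (by positivity) (by norm_num)]
      have : (0 : ℝ) ≤ k := Nat.cast_nonneg k
      linarith
    calc _ ≤ (8 ^ 28 / (Nat.factorial 28 : ℝ) * (1 / 2) ^ k) * (1 / 2) := by
          apply mul_le_mul ih h2 (by positivity) (by positivity)
      _ = _ := by ring

theorem tail_bound (L η : ℝ) (hL : -1 < L) (hη : |η| ≤ 1 / 2) (hC : |η / (L + 1)| ≤ 10)
    {ρ : ℝ} (hρ : |ρ| ≤ 4) :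
    |Phi L η ρ - ∑ k ∈ range 28, A L η k * ρ ^ k| ≤ 1 / 100 := by
  have hs := summable_Phi L η hL hη hρ
  have h1 : Phi L η ρ - ∑ k ∈ range 28, A L η k * ρ ^ k =
      ∑' k : ℕ, A L η (k + 28) * ρ ^ (k + 28) := by
    have := hs.sum_add_tsum_nat_add 28
    unfold Phi
    linarith
  rw [h1, ← Real.norm_eq_abs]
  have hgeo : HasSum (fun k : ℕ => 11 * (8 ^ 28 / (Nat.factorial 28 : ℝ)) * (1 / 2 : ℝ) ^ k)
      (11 * (8 ^ 28 / (Nat.factorial 28 : ℝ)) * 2) := hasSum_geometric_two.mul_left _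
  refine (tsum_of_norm_bounded hgeo fun k => ?_).trans ?_
  · refine (term_bound L η hL hη hρ (k + 28)).trans ?_
    calc (1 + |η / (L + 1)|) * ((8 : ℝ) ^ (k + 28) / ((k + 28).factorial : ℝ))
        ≤ 11 * (8 ^ 28 / (Nat.factorial 28 : ℝ) * (1 / 2) ^ k) := by
          apply mul_le_mul (by linarith) (fact_bound k) (by positivity) (by norm_num)
      _ = _ := by ring
  · norm_num [Nat.factorial]

theorem A_eq_of (L η : ℚ) (l : List ℚ) (h0 : l.getD 0 0 = 1) (h1 : l.getD 1 0 = η / (L + 1))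
    (hr : ∀ k < 26, l.getD (k + 2) 0 = (2 * η * l.getD (k + 1) 0 - l.getD k 0) /
      (((k : ℚ) + 2) * ((k : ℚ) + 2 + 2 * L + 1))) :
    ∀ k < 28, A (L : ℝ) (η : ℝ) k = ((l.getD k 0 : ℚ) : ℝ) := by
  have key : ∀ k < 27, A (L : ℝ) (η : ℝ) k = ((l.getD k 0 : ℚ) : ℝ) ∧
      A (L : ℝ) (η : ℝ) (k + 1) = ((l.getD (k + 1) 0 : ℚ) : ℝ) := by
    intro k
    induction k with
    | zero =>
      intro _
      refine ⟨?_, ?_⟩
      · rw [h0]; simp [A]
      · rw [zero_add, h1]; simp only [A]; push_cast; ring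
    | succ k ih =>
      intro hk
      have ih' := ih (by omega)
      refine ⟨ih'.2, ?_⟩
      have e1 : A (L : ℝ) (η : ℝ) (k + 1 + 1) = (2 * (η : ℝ) * A L η (k + 1) - A L η k) /
          (((k : ℝ) + 2) * ((k : ℝ) + 2 + 2 * L + 1)) := by simp [A]
      rw [e1, ih'.1, ih'.2, hr k (by omega)]
      push_cast
      ring
  intro k hk
  rcases Nat.lt_or_ge k 27 with h | h
  · exact (key k h).1
  · have : k = 26 + 1 := by omega
    rw [this]
    exact (key 26 (by omega)).2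

theorem A1_eq : ∀ k < 28, A (-99 / 100) (1 / 10) k = ((l1.getD k 0 : ℚ) : ℝ) := by
  have := A_eq_of (-99 / 100) (1 / 10) l1 l1_zero l1_one l1_rec
  push_cast at this
  exact this

theorem A2_eq : ∀ k < 28, A (-4 / 5) (1 / 10) k = ((l2.getD k 0 : ℚ) : ℝ) := by
  have := A_eq_of (-4 / 5) (1 / 10) l2 l2_zero l2_one l2_rec
  push_cast at this
  exact this

theorem lowq_le (l : List ℚ) (a b : ℚ) (ha : 0 ≤ a) (ρ : ℝ) (h1 : (a : ℝ) ≤ ρ)
    (h2 : ρ ≤ (b : ℝ)) :
    ((lowq l a b : ℚ) : ℝ) ≤ ∑ k ∈ range 28, ((l.getD k 0 : ℚ) : ℝ) * ρ ^ k := by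
  unfold lowq
  push_cast
  refine Finset.sum_le_sum fun k _ => ?_
  have ha' : (0 : ℝ) ≤ a := by exact_mod_cast ha
  split_ifs with h
  · have h' : (0 : ℝ) ≤ ((l.getD k 0 : ℚ) : ℝ) := by exact_mod_cast h
    push_cast
    exact mul_le_mul_of_nonneg_left (pow_le_pow_left₀ ha' h1 k) h'
  · have h' : ((l.getD k 0 : ℚ) : ℝ) ≤ 0 := by exact_mod_cast (not_le.1 h).le
    push_cast
    exact mul_le_mul_of_nonpos_left (pow_le_pow_left₀ (ha'.trans h1) h2 k) h'

theorem Phi1_pos (ρ : ℝ) (h0 : 0 ≤ ρ) (h1 : ρ ≤ 27 / 10) : 0 < Phi (-99 / 100) (1 / 10) ρ := by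
  have hL : (-1 : ℝ) < -99 / 100 := by norm_num
  have hη : |(1 / 10 : ℝ)| ≤ 1 / 2 := by rw [abs_of_pos] <;> norm_num
  have hC : |(1 / 10 : ℝ) / (-99 / 100 + 1)| ≤ 10 := by norm_num [abs_of_pos]
  have ht := tail_bound (-99 / 100) (1 / 10) hL hη hC (ρ := ρ)
    (by rw [abs_of_nonneg h0]; linarith)
  rw [Finset.sum_congr rfl (fun k hk => by rw [A1_eq k (Finset.mem_range.1 hk)])] at ht
  -- find the interval
  obtain ⟨i, hi, hi1, hi2⟩ : ∃ i : ℕ, i < 27 ∧ (i : ℝ) / 10 ≤ ρ ∧ ρ ≤ ((i : ℝ) + 1) / 10 := by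
    rcases eq_or_lt_of_le h1 with h | h
    · exact ⟨26, by norm_num, by rw [h]; norm_num, by rw [h]; norm_num⟩
    · refine ⟨⌊10 * ρ⌋₊, ?_, ?_, ?_⟩
      · rw [Nat.floor_lt (by positivity)]
        push_cast
        linarith
      · have := Nat.floor_le (show 0 ≤ 10 * ρ by positivity)
        linarith
      · have := (Nat.lt_floor_add_one (10 * ρ)).le
        linarith
  have hlow := low_check i hi
  have hle := lowq_le l1 ((i : ℚ) / 10) (((i : ℚ) + 1) / 10) (by positivity) ρ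
    (by push_cast; exact hi1) (by push_cast; exact hi2)
  have hlow' : (1 / 2 : ℝ) < ((lowq l1 ((i : ℚ) / 10) (((i : ℚ) + 1) / 10) : ℚ) : ℝ) := by
    have := (Rat.cast_lt (K := ℝ)).2 hlow
    push_cast at this
    push_cast
    exact this
  rw [abs_le] at ht
  linarith [ht.1]

theorem Phi1_neg : Phi (-99 / 100) (1 / 10) (18 / 5) < 0 := by
  have hL : (-1 : ℝ) < -99 / 100 := by norm_num
  have hη : |(1 / 10 : ℝ)| ≤ 1 / 2 := by rw [abs_of_pos] <;> norm_num
  have hC : |(1 / 10 : ℝ) / (-99 / 100 + 1)| ≤ 10 := by norm_num [abs_of_pos]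
  have ht := tail_bound (-99 / 100) (1 / 10) hL hη hC (ρ := 18 / 5)
    (by rw [abs_of_pos] <;> norm_num)
  rw [Finset.sum_congr rfl (fun k hk => by rw [A1_eq k (Finset.mem_range.1 hk)])] at ht
  have h := (Rat.cast_lt (K := ℝ)).2 neg_check1
  push_cast at h
  rw [abs_le] at ht
  linarith [ht.2]

theorem Phi2_neg : Phi (-4 / 5) (1 / 10) (27 / 10) < 0 := by
  have hL : (-1 : ℝ) < -4 / 5 := by norm_num
  have hη : |(1 / 10 : ℝ)| ≤ 1 / 2 := by rw [abs_of_pos] <;> norm_num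
  have hC : |(1 / 10 : ℝ) / (-4 / 5 + 1)| ≤ 10 := by
    rw [abs_of_pos] <;> norm_num
  have ht := tail_bound (-4 / 5) (1 / 10) hL hη hC (ρ := 27 / 10)
    (by rw [abs_of_pos] <;> norm_num)
  rw [Finset.sum_congr rfl (fun k hk => by rw [A2_eq k (Finset.mem_range.1 hk)])] at ht
  have h := (Rat.cast_lt (K := ℝ)).2 neg_check2
  push_cast at h
  rw [abs_le] at ht
  linarith [ht.2]

theorem Phi_zero (L η : ℝ) : Phi L η 0 = 1 := by
  unfold Phi
  rw [tsum_eq_single 0]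
  · simp [A]
  · intro k hk
    simp [hk]

/-- A continuous function positive at `0` and negative at `R` has a least zero in `(0, R)`. -/
theorem exists_first_zero (f : ℝ → ℝ) (R : ℝ) (hR : 0 < R) (hf : ContinuousOn f (Set.Icc 0 R))
    (h0 : 0 < f 0) (h1 : f R < 0) :
    ∃ r, 0 < r ∧ r < R ∧ f r = 0 ∧ ∀ x, 0 < x → x < r → f x ≠ 0 := by
  have hne : (Set.Icc 0 R ∩ f ⁻¹' {0}).Nonempty := by
    have := intermediate_value_Icc' hR.le hf
    obtain ⟨x, hx, hx0⟩ := this ⟨h1.le, h0.le⟩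
    exact ⟨x, hx, hx0⟩
  have hcl : IsClosed (Set.Icc 0 R ∩ f ⁻¹' {0}) :=
    hf.preimage_isClosed_of_isClosed isClosed_Icc isClosed_singleton
  have hcomp : IsCompact (Set.Icc 0 R ∩ f ⁻¹' {0}) :=
    isCompact_Icc.of_isClosed_subset hcl Set.inter_subset_left
  obtain ⟨r, hr, hmin⟩ := hcomp.exists_isLeast hne
  refine ⟨r, ?_, ?_, hr.2, ?_⟩
  · rcases eq_or_lt_of_le hr.1.1 with h | h
    · have h' : f r = 0 := hr.2
      rw [← h] at h'
      linarith
    · exact h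
  · rcases eq_or_lt_of_le hr.1.2 with h | h
    · have h' : f r = 0 := hr.2
      rw [h] at h'
      linarith
    · exact h
  · intro x hx hxr hx0
    have := hmin ⟨⟨hx.le, hxr.le.trans hr.1.2⟩, hx0⟩
    linarith

end Pool.Agent.V1174.Coul
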