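import Pool.Agent.V1174.Coul.Basic

/-!
# The regular Coulomb wave function as a real power series
-/

namespace Pool.Agent.V1174.Coul

open Complex Finset

theorem asc_bound (a : ℂ) (b : ℝ) (hb : 0 < b) (k : ℕ) :
    ‖(ascPochhammer ℂ k).eval a‖ ≤ (‖a‖ / b + 1) ^ k * ‖(ascPochhammer ℂ k).eval (b : ℂ)‖ := by
  induction k with
  | zero => simp
  | succ k ih =>
    rw [ascPochhammer_succ_eval, ascPochhammer_succ_eval, norm_mul, norm_mul, pow_succ]
    have h1 : ‖a + (k : ℂ)‖ ≤ (‖a‖ / b + 1) * ‖(b : ℂ) + (k : ℂ)‖ := by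
      have h2 : ‖(b : ℂ) + (k : ℂ)‖ = b + k := by
        have : (b : ℂ) + (k : ℂ) = ((b + k : ℝ) : ℂ) := by push_cast; ring
        rw [this, Complex.norm_real, Real.norm_of_nonneg (by positivity)]
      rw [h2]
      have h3 : ‖a + (k : ℂ)‖ ≤ ‖a‖ + k := by
        refine (norm_add_le _ _).trans ?_
        simp
      refine h3.trans ?_
      have h4 : ‖a‖ / b * b = ‖a‖ := div_mul_cancel₀ _ hb.ne'
      have h5 : (0 : ℝ) ≤ ‖a‖ / b * k := by positivity
      nlinarith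
    calc ‖(ascPochhammer ℂ k).eval a‖ * ‖a + (k : ℂ)‖
        ≤ ((‖a‖ / b + 1) ^ k * ‖(ascPochhammer ℂ k).eval (b : ℂ)‖) *
          ((‖a‖ / b + 1) * ‖(b : ℂ) + (k : ℂ)‖) := by
          apply mul_le_mul ih h1 (norm_nonneg _) (by positivity)
      _ = _ := by ring

theorem summable_kummer (a : ℂ) (b : ℝ) (hb : 0 < b) (z : ℂ) :
    Summable fun k : ℕ => ‖(ascPochhammer ℂ k).eval a / (ascPochhammer ℂ k).eval (b : ℂ) * z ^ k /
      (k.factorial : ℂ)‖ := by
  refine Summable.of_nonneg_of_le (fun _ => norm_nonneg _) (fun k => ?_)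
    (Real.summable_pow_div_factorial ((‖a‖ / b + 1) * ‖z‖))
  have hne : (ascPochhammer ℂ k).eval (b : ℂ) ≠ 0 := by
    apply asc_ne
    intro j h
    have h' : ((b + j : ℝ) : ℂ) = 0 := by push_cast; exact h
    have h'' : (b + j : ℝ) = 0 := by exact_mod_cast h'
    have : (0 : ℝ) ≤ j := Nat.cast_nonneg j
    linarith
  have hpos : 0 < ‖(ascPochhammer ℂ k).eval (b : ℂ)‖ := norm_pos_iff.2 hne
  rw [norm_div, norm_mul, norm_div, norm_pow, Complex.norm_natCast, mul_pow]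
  gcongr
  rw [div_le_iff₀ hpos]
  exact asc_bound a b hb k

/-- The real entire function with `F_{L,η}(ρ) = C ρ ^ (L+1) Φ(ρ)`. -/
noncomputable def Phi (L η ρ : ℝ) : ℝ := ∑' k : ℕ, A L η k * ρ ^ k

theorem kummer_eq (L η : ℝ) (hL : -1 < L) (ρ : ℝ) :
    Complex.exp (-(I * ρ)) * kummer ((L : ℂ) + 1 - I * η) (2 * (L : ℂ) + 2) (2 * I * ρ) =
      ((Phi L η ρ : ℝ) : ℂ) := by
  have hb : (0 : ℝ) < 2 * L + 2 := by linarith
  have hbc : (2 * (L : ℂ) + 2) = ((2 * L + 2 : ℝ) : ℂ) := by push_cast; ring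
  have hexp : Complex.exp (-(I * ρ)) = ∑' k : ℕ, (-(I * ρ)) ^ k / (k.factorial : ℂ) := by
    rw [Complex.exp_eq_exp_ℂ, NormedSpace.exp_eq_tsum_div]
  have hs1 : Summable fun k : ℕ => ‖(-(I * (ρ : ℂ))) ^ k / (k.factorial : ℂ)‖ := by
    have := Real.summable_pow_div_factorial ‖-(I * (ρ : ℂ))‖
    refine this.congr fun k => ?_
    rw [norm_div, norm_pow, Complex.norm_natCast]
  have hs2 := summable_kummer ((L : ℂ) + 1 - I * η) (2 * L + 2) hb (2 * I * ρ)
  rw [← hbc] at hs2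
  rw [hexp, kummer, tsum_mul_tsum_eq_tsum_sum_antidiagonal_of_summable_norm hs1 hs2, Phi,
    Complex.ofReal_tsum]
  refine tsum_congr fun n => ?_
  rw [Complex.ofReal_mul, ← coeff_Gs L η hL n, Gs, PowerSeries.coeff_mul, Finset.sum_mul]
  refine Finset.sum_congr rfl fun p hp => ?_
  have hp' : p.1 + p.2 = n := Finset.HasAntidiagonal.mem_antidiagonal.1 hp
  simp only [Es, Ms, PowerSeries.coeff_mk]
  rw [← hp', Complex.ofReal_pow, pow_add, ← neg_mul, mul_pow, mul_pow]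
  ring

theorem coulombC_ne (L η : ℝ) (hL : -1 < L) : coulombC L η ≠ 0 := by
  unfold coulombC
  have h1 : (0 : ℝ) < Real.Gamma (2 * L + 2) := Real.Gamma_pos_of_pos (by linarith)
  have h2 : Complex.Gamma ((L : ℂ) + 1 + I * η) ≠ 0 := by
    apply Complex.Gamma_ne_zero_of_re_pos
    simp
    linarith
  have h3 : (0 : ℝ) < (2 : ℝ) ^ L := Real.rpow_pos_of_pos (by norm_num) L
  have h4 := norm_pos_iff.2 h2
  positivity

theorem coulombF_eq_zero_iff (L η : ℝ) (hL : -1 < L) (ρ : ℝ) (hρ : 0 < ρ) :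
    coulombF L η ρ = 0 ↔ Phi L η ρ = 0 := by
  unfold coulombF
  rw [mul_assoc, kummer_eq L η hL ρ]
  have h1 : (coulombC L η : ℂ) ≠ 0 := by exact_mod_cast coulombC_ne L η hL
  have h2 : ((ρ ^ (L + 1) : ℝ) : ℂ) ≠ 0 := by
    exact_mod_cast (Real.rpow_pos_of_pos hρ (L + 1)).ne'
  constructor
  · intro h
    rcases mul_eq_zero.1 h with h | h
    · exact absurd h (mul_ne_zero h1 h2)
    · exact_mod_cast h
  · intro h
    rw [h]; simp

end Pool.Agent.V1174.Coul
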